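import Pool.Agent.W8.ST.Stm

/-!
Project ST, part SteE: the Steklov spectra agree.
-/

set_option autoImplicit false

open scoped ContDiff

namespace Pool.Agent.W106.ST

open Pool.Agent.W8.ST

noncomputable section

variable {sig : ℝ}

/-- `u` represents `v` -/
def R (v : E 0 sig) (u : V 4 → ℝ) : Prop :=
  Sol 0 sig u ∧ ∀ x : strip 3, (v : strip 3 → ℝ) x = u x

theorem R_ex (h : SolE) (v : E 0 sig) : ∃ u, R v u := by
  obtain ⟨u, hu, hv⟩ := (h.1 0 sig v).1 v.2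
  exact ⟨u, hu, hv⟩

theorem R_mk (h : SolE) {u : V 4 → ℝ} (hu : Sol 0 sig u) : ∃ v : E 0 sig, R v u :=
  ⟨⟨fun x => u x, (h.1 0 sig _).2 ⟨u, hu, fun _ => rfl⟩⟩, hu, fun _ => rfl⟩

theorem R_uniq {v v' : E 0 sig} {u u' : V 4 → ℝ} (h : R v u) (h' : R v' u')
    (he : ∀ x ∈ strip 3, u x = u' x) : v = v' := by
  apply Subtype.ext
  funext x
  rw [h.2, h'.2, he x x.2]

theorem R_neg {v v' : E 0 sig} {u u' : V 4 → ℝ} (h : R v u) (h' : R v' u')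
    (he : ∀ x ∈ strip 3, u x = - u' x) : v = -v' := by
  apply Subtype.ext
  funext x
  rw [h.2, he x x.2, ← h'.2]
  rfl

theorem R_congr {v : E 0 sig} {u u' : V 4 → ℝ} (h : R v u) (h' : R v u') :
    ∀ x ∈ strip 3, u x = u' x := by
  intro x hx
  have h1 := h.2 ⟨x, hx⟩
  have h2 := h'.2 ⟨x, hx⟩
  exact h1.symm.trans h2

theorem R_zero {v : E 0 sig} {u : V 4 → ℝ} (h : R v u) : v = 0 ↔ ∀ x ∈ strip 3, u x = 0 := by
  constructor
  · rintro rfl x hx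
    exact (h.2 ⟨x, hx⟩).symm
  · intro h1
    apply Subtype.ext
    funext x
    rw [h.2, h1 x x.2]
    rfl

theorem R_add (hS : SolE) {v v' : E 0 sig} {u u' : V 4 → ℝ} (h : R v u) (h' : R v' u') :
    R (v + v') (u + u') := by
  refine ⟨hS.2.1 0 sig u u' h.1 h'.1, fun x => ?_⟩
  change (v : strip 3 → ℝ) x + (v' : strip 3 → ℝ) x = u x + u' x
  rw [h.2, h'.2]

theorem R_smul (hS : SolE) {v : E 0 sig} {u : V 4 → ℝ} (c : ℝ) (h : R v u) :
    R (c • v) (c • u) := by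
  refine ⟨hS.2.2 0 sig c u h.1, fun x => ?_⟩
  change c * (v : strip 3 → ℝ) x = c * u x
  rw [h.2]

theorem opD (hC : CommD) (hD : OpD) (hS : SolE) (hL : LOp) (i : Fin 3) :
    ∃ L : E 0 sig →ₗ[ℝ] E 0 sig, ∀ v u, R v u → R (L v) (pd i.succ u) := by
  have ha : ∀ u u', Sol 0 sig u → Sol 0 sig u' → ∀ x ∈ strip 3,
      pd i.succ (u + u') x = pd i.succ u x + pd i.succ u' x := by
    intro u u' hu hu' x _
    unfold pd
    have h1 : DifferentiableAt ℝ u x := hu.1.differentiable (by simp) x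
    have h2 : DifferentiableAt ℝ u' x := hu'.1.differentiable (by simp) x
    rw [fderiv_add h1 h2]
    rfl
  have hs : ∀ (c : ℝ) u, Sol 0 sig u → ∀ x ∈ strip 3,
      pd i.succ (c • u) x = c * pd i.succ u x := by
    intro c u hu x _
    unfold pd
    have h1 : DifferentiableAt ℝ u x := hu.1.differentiable (by simp) x
    rw [fderiv_const_smul h1]
    rfl
  obtain ⟨L, hL'⟩ := hL hS 0 sig (fun u => pd i.succ u) (fun u hu => (hD hC).1 0 sig u hu i)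
    (fun u u' hu hu' h => (hD hC).2 u u' hu.1 hu'.1 h i) ha hs
  exact ⟨L, fun v u h => ⟨(hD hC).1 0 sig u h.1 i, hL' v u h.1 h.2⟩⟩

theorem opI (hS : SolE) (hL : LOp) (f : V 4 → V 4) (hf : ∀ u, Sol 0 sig u → Sol 0 sig (u ∘ f))
    (hf' : ∀ x ∈ strip 3, f x ∈ strip 3) :
    ∃ L : E 0 sig →ₗ[ℝ] E 0 sig, ∀ v u, R v u → R (L v) (u ∘ f) := by
  obtain ⟨L, hL'⟩ := hL hS 0 sig (fun u => u ∘ f) hf
    (fun u u' hu hu' h x hx => h (f x) (hf' x hx)) (fun u u' _ _ x _ => rfl)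
    (fun c u _ x _ => rfl)
  exact ⟨L, fun v u h => ⟨hf u h.1, hL' v u h.1 h.2⟩⟩

theorem jj_jj (x : V 4) : jj (jj x) = x := by
  funext i
  fin_cases i <;> simp [jj]

theorem jj_strip {x : V 4} (hx : x ∈ strip 3) : jj x ∈ strip 3 := by
  change |jj x 0| ≤ 1
  change |x 0| ≤ 1 at hx
  simpa [jj] using hx

theorem exJ (hS : SolE) (S S' : Submodule ℝ (E 0 sig))
    (h1 : ∀ v ∈ S, ∀ u, R v u → Sol 0 sig (u ∘ jj) ∧ ∀ w, R w (u ∘ jj) → w ∈ S')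
    (h2 : ∀ v ∈ S', ∀ u, R v u → Sol 0 sig (u ∘ jj) ∧ ∀ w, R w (u ∘ jj) → w ∈ S) :
    ∃ J : S ≃ₗ[ℝ] S', ∀ v : S, ∀ u, R v.1 u → R (J v).1 (u ∘ jj) := by
  have key : ∀ (S S' : Submodule ℝ (E 0 sig)),
      (∀ v ∈ S, ∀ u, R v u → Sol 0 sig (u ∘ jj) ∧ ∀ w, R w (u ∘ jj) → w ∈ S') →
      ∃ f : S → S', ∀ v : S, ∀ u, R v.1 u → R (f v).1 (u ∘ jj) := by
    intro S S' h
    have h3 : ∀ v : S, ∃ w : S', ∀ u, R v.1 u → R w.1 (u ∘ jj) := by
      intro v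
      obtain ⟨u, hu⟩ := R_ex hS v.1
      obtain ⟨w, hw⟩ := R_mk hS (h v.1 v.2 u hu).1
      refine ⟨⟨w, (h v.1 v.2 u hu).2 w hw⟩, fun u' hu' => ⟨(h v.1 v.2 u' hu').1, fun x => ?_⟩⟩
      rw [hw.2 x]
      exact R_congr hu hu' (jj x) (jj_strip x.2)
    choose f hf using h3
    exact ⟨f, hf⟩
  obtain ⟨f, hf⟩ := key S S' h1
  obtain ⟨g, hg⟩ := key S' S h2
  refine ⟨{ toFun := f, map_add' := ?_, map_smul' := ?_, invFun := g, left_inv := ?_,
            right_inv := ?_ }, hf⟩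
  · intro v v'
    obtain ⟨u, hu⟩ := R_ex hS v.1
    obtain ⟨u', hu'⟩ := R_ex hS v'.1
    apply Subtype.ext
    exact R_uniq (hf (v + v') (u + u') (R_add hS hu hu')) (R_add hS (hf v u hu) (hf v' u' hu'))
      (fun x _ => rfl)
  · intro c v
    obtain ⟨u, hu⟩ := R_ex hS v.1
    apply Subtype.ext
    exact R_uniq (hf (c • v) (c • u) (R_smul hS c hu)) (R_smul hS c (hf v u hu))
      (fun x _ => rfl)
  · intro v
    obtain ⟨u, hu⟩ := R_ex hS v.1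
    apply Subtype.ext
    refine R_uniq (hg (f v) _ (hf v u hu)) hu fun x _ => ?_
    change u (jj (jj x)) = u x
    rw [jj_jj]
  · intro v
    obtain ⟨u, hu⟩ := R_ex hS v.1
    apply Subtype.ext
    refine R_uniq (hf (g v) _ (hg v u hu)) hu fun x _ => ?_
    change u (jj (jj x)) = u x
    rw [jj_jj]

theorem F_rank (hS : SolE) (f : V 4 → V 4) (L : E 0 sig →ₗ[ℝ] E 0 sig)
    (hL : ∀ v u, R v u → R (L v) (u ∘ f)) :
    Module.rank ℝ (F 0 sig f) = Module.rank ℝ (LinearMap.eqLocus L LinearMap.id) := by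
  have h1 : F 0 sig f = Submodule.map (E 0 sig).subtype (LinearMap.eqLocus L LinearMap.id) := by
    apply le_antisymm
    · apply Submodule.span_le.2
      rintro v ⟨u, ⟨hu, hi⟩, hv⟩
      have hvE : v ∈ E 0 sig := (hS.1 0 sig v).2 ⟨u, hu, hv⟩
      have hR : R (⟨v, hvE⟩ : E 0 sig) u := ⟨hu, hv⟩
      refine ⟨⟨v, hvE⟩, ?_, rfl⟩
      change L _ = _
      exact R_uniq (hL _ _ hR) hR fun x hx => hi x hx
    · rintro _ ⟨v, hv, rfl⟩
      obtain ⟨u, hu⟩ := R_ex hS v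
      apply Submodule.subset_span
      have h2 : L v = v := hv
      refine ⟨u, ⟨hu.1, fun x hx => ?_⟩, hu.2⟩
      have h3 := hL _ _ hu
      rw [h2] at h3
      exact R_congr h3 hu x hx
  rw [h1]
  exact (LinearEquiv.rank_eq (Submodule.equivMapOfInjective (E 0 sig).subtype
    Subtype.val_injective (LinearMap.eqLocus L LinearMap.id))).symm

theorem i1_strip {x : V 4} (hx : x ∈ strip 3) : i1 x ∈ strip 3 := by
  change |i1 x 0| ≤ 1
  change |x 0| ≤ 1 at hx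
  simpa [i1] using hx

theorem i2_strip {x : V 4} (hx : x ∈ strip 3) : i2 x ∈ strip 3 := by
  change |i2 x 0| ≤ 1
  change |x 0| ≤ 1 at hx
  simpa [i2] using hx

theorem i1_i1 (x : V 4) : i1 (i1 x) = x + Pi.single (1 : Fin 3).succ (2 * Real.pi) := by
  funext i
  fin_cases i <;> simp [i1, Fin.succ, Pi.single, Function.update]
  ring

theorem i2_i2 (x : V 4) : i2 (i2 x) = x + Pi.single (0 : Fin 3).succ (2 * Real.pi) := by
  funext i
  fin_cases i <;> simp [i2, Fin.succ, Pi.single, Function.update]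
  ring

theorem i1_jj (x : V 4) : i1 (jj x) = jj (i2 x) := by
  funext i
  fin_cases i <;> simp [i1, i2, jj]

theorem i2_jj (x : V 4) : i2 (jj x) = jj (i1 x) := by
  funext i
  fin_cases i <;> simp [i1, i2, jj]

theorem SteE_proof : SteE := by
  intro hAbs hC hD hI hJ hP hS hL sig
  obtain ⟨hI1, hI2⟩ := hI
  have hop : ∀ i : Fin 3, ∃ L : E 0 sig →ₗ[ℝ] E 0 sig, ∀ v u, R v u → R (L v) (pd i.succ u) :=
    fun i => opD hC hD hS hL i
  choose D hDp using hop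
  obtain ⟨I1, h1⟩ := opI (sig := sig) hS hL i1 (fun u hu => (hI1 0 sig u hu).1)
    (fun x hx => i1_strip hx)
  obtain ⟨I2, h2⟩ := opI (sig := sig) hS hL i2 (fun u hu => (hI1 0 sig u hu).2)
    (fun x hx => i2_strip hx)
  have hker : ∀ (i : Fin 3) (v : E 0 sig) u, R v u → (D i v = 0 ↔
      ∀ x ∈ strip 3, pd i.succ u x = 0) := fun i v u hu => R_zero (hDp i v u hu)
  have hk0 : ∀ (v : E 0 sig) u, R v u → (D 0 v = 0 ↔ ∀ x ∈ strip 3, pd 1 u x = 0) :=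
    fun v u hu => hker 0 v u hu
  have hk1 : ∀ (v : E 0 sig) u, R v u → (D 1 v = 0 ↔ ∀ x ∈ strip 3, pd 2 u x = 0) :=
    fun v u hu => hker 1 v u hu
  have hk2 : ∀ (v : E 0 sig) u, R v u → (D 2 v = 0 ↔ ∀ x ∈ strip 3, pd 3 u x = 0) :=
    fun v u hu => hker 2 v u hu
  obtain ⟨J, hJp⟩ := exJ hS (LinearMap.ker (D 0) ⊓ LinearMap.ker (D 2))
    (LinearMap.ker (D 1) ⊓ LinearMap.ker (D 2)) (by
      intro v hv u hu
      have ha := (hk0 v u hu).1 hv.1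
      have hb := (hk2 v u hu).1 hv.2
      refine ⟨hJ.1 sig u hu.1 (Or.inl fun x hx => ⟨ha x hx, hb x hx⟩), fun w hw => ⟨?_, ?_⟩⟩
      · refine (hk1 w _ hw).2 fun x hx => ?_
        rw [(hJ.2 u hu.1.1).2.1]
        exact ha (jj x) (jj_strip hx)
      · refine (hk2 w _ hw).2 fun x hx => ?_
        rw [(hJ.2 u hu.1.1).2.2]
        exact hb (jj x) (jj_strip hx)) (by
      intro v hv u hu
      have ha := (hk1 v u hu).1 hv.1
      have hb := (hk2 v u hu).1 hv.2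
      refine ⟨hJ.1 sig u hu.1 (Or.inr fun x hx => ⟨ha x hx, hb x hx⟩), fun w hw => ⟨?_, ?_⟩⟩
      · refine (hk0 w _ hw).2 fun x hx => ?_
        rw [(hJ.2 u hu.1.1).1]
        exact ha (jj x) (jj_strip hx)
      · refine (hk2 w _ hw).2 fun x hx => ?_
        rw [(hJ.2 u hu.1.1).2.2]
        exact hb (jj x) (jj_strip hx))
  rw [F_rank hS i1 I1 h1, F_rank hS i2 I2 h2]
  refine hAbs (E 0 sig) D I1 I2 ?_ ?_ ?_ ?_ ?_ ?_ ?_ ?_ ?_ ?_ J ?_ ?_ ?_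
  · intro i j v
    obtain ⟨u, hu⟩ := R_ex hS v
    refine R_uniq (hDp i _ _ (hDp j _ _ hu)) (hDp j _ _ (hDp i _ _ hu)) fun x _ => ?_
    rw [(hC u hu.1.1).2]
  · intro i v hv
    obtain ⟨u, hu⟩ := R_ex hS v
    have h3 := (hker i (D i v) _ (hDp i _ _ hu)).1 hv
    exact (hker i v u hu).2 (hP hC 0 sig u hu.1 i h3)
  · intro v
    obtain ⟨u, hu⟩ := R_ex hS v
    refine R_uniq (h1 _ _ (h1 _ _ hu)) hu fun x hx => ?_
    change u (i1 (i1 x)) = u x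
    rw [i1_i1]
    exact hu.1.2.1 x hx 1
  · intro v
    obtain ⟨u, hu⟩ := R_ex hS v
    refine R_uniq (h2 _ _ (h2 _ _ hu)) hu fun x hx => ?_
    change u (i2 (i2 x)) = u x
    rw [i2_i2]
    exact hu.1.2.1 x hx 0
  · intro v
    obtain ⟨u, hu⟩ := R_ex hS v
    refine R_neg (h1 _ _ (hDp 0 _ _ hu)) (hDp 0 _ _ (h1 _ _ hu)) fun x _ => ?_
    change pd 1 u (i1 x) = - pd 1 (u ∘ i1) x
    rw [(hI2 u hu.1.1).1]
    simp
  · intro v
    obtain ⟨u, hu⟩ := R_ex hS v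
    refine R_uniq (h1 _ _ (hDp 1 _ _ hu)) (hDp 1 _ _ (h1 _ _ hu)) fun x _ => ?_
    change pd 2 u (i1 x) = pd 2 (u ∘ i1) x
    rw [(hI2 u hu.1.1).2.1]
    rfl
  · intro v
    obtain ⟨u, hu⟩ := R_ex hS v
    refine R_neg (h1 _ _ (hDp 2 _ _ hu)) (hDp 2 _ _ (h1 _ _ hu)) fun x _ => ?_
    change pd 3 u (i1 x) = - pd 3 (u ∘ i1) x
    rw [(hI2 u hu.1.1).2.2.1]
    simp
  · intro v
    obtain ⟨u, hu⟩ := R_ex hS v
    refine R_uniq (h2 _ _ (hDp 0 _ _ hu)) (hDp 0 _ _ (h2 _ _ hu)) fun x _ => ?_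
    change pd 1 u (i2 x) = pd 1 (u ∘ i2) x
    rw [(hI2 u hu.1.1).2.2.2.1]
    rfl
  · intro v
    obtain ⟨u, hu⟩ := R_ex hS v
    refine R_neg (h2 _ _ (hDp 1 _ _ hu)) (hDp 1 _ _ (h2 _ _ hu)) fun x _ => ?_
    change pd 2 u (i2 x) = - pd 2 (u ∘ i2) x
    rw [(hI2 u hu.1.1).2.2.2.2.1]
    simp
  · intro v
    obtain ⟨u, hu⟩ := R_ex hS v
    refine R_neg (h2 _ _ (hDp 2 _ _ hu)) (hDp 2 _ _ (h2 _ _ hu)) fun x _ => ?_
    change pd 3 u (i2 x) = - pd 3 (u ∘ i2) x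
    rw [(hI2 u hu.1.1).2.2.2.2.2]
    simp
  · intro v
    obtain ⟨u, hu⟩ := R_ex hS v.1
    rw [hk1 v.1 u hu, hk0 (J v).1 _ (hJp v u hu), (hJ.2 u hu.1.1).1]
    constructor
    · intro h3 x hx
      exact h3 (jj x) (jj_strip hx)
    · intro h3 x hx
      have h4 := h3 (jj x) (jj_strip hx)
      change pd 2 u (jj (jj x)) = 0 at h4
      rwa [jj_jj] at h4
  · intro v w hw
    obtain ⟨u, hu⟩ := R_ex hS v.1
    have h3 : R w.1 (u ∘ i1) := by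
      rw [hw]
      exact h1 _ _ hu
    refine R_uniq (hJp w _ h3) (h2 _ _ (hJp v u hu)) fun x _ => ?_
    change u (i1 (jj x)) = u (jj (i2 x))
    rw [i1_jj]
  · intro v w hw
    obtain ⟨u, hu⟩ := R_ex hS v.1
    have h3 : R w.1 (u ∘ i2) := by
      rw [hw]
      exact h2 _ _ hu
    refine R_uniq (hJp w _ h3) (h1 _ _ (hJp v u hu)) fun x _ => ?_
    change u (i2 (jj x)) = u (jj (i1 x))
    rw [i2_jj]

end

end Pool.Agent.W106.ST
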